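import Pool.Agent.Y646.MX.Deg

set_option autoImplicit false

/-!
# `k`-colour mixing on connected, `(k-2)`-colourable, `(k-1)`-degenerate graphs

For every fixed `k ≥ 4`, `k`-COLOUR-MIXING is `PSPACE`-complete, and `PSPACE`-hard already on
connected graphs that are `(k-2)`-colourable and `(k-1)`-degenerate; for `k = 4` these are the
connected bipartite graphs of degeneracy at most `3`. (On `(k-2)`-degenerate graphs the answer is
always yes.)
-/

namespace Pool.Agent.Results.MP_8006ab_lc.BipartiteMixing

open Pool.Agent.NPC Pool.Agent.Y646.MX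

/-- For every fixed `k ≥ 4`, `k`-COLOUR-MIXING is `PSPACE`-complete, and every language in `PSPACE`
has a polynomial-time many-one reduction to it all of whose values are adjacency matrices of
connected graphs that are `(k-2)`-colourable and `(k-1)`-degenerate. -/
theorem result : ∀ k : ℕ, 4 ≤ k →
    Pool.Agent.H623R2.PS.PSPACEComplete (lang (Mix.COLOUR_MIXING k)) ∧
    ∀ L : Set (List Bool), Pool.Agent.H623R2.PS.InPSPACE L →
      ∃ f : List Bool → List (List Bool), PolyTime (fun x => bits (f x)) ∧
        ∀ x, (∃ (n : ℕ) (G : SimpleGraph (Fin n)), R671.adjMatrix G = f x ∧ G.Connected ∧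
            G.Colorable (k - 2) ∧ Degenerate G (k - 1)) ∧
          (x ∈ L ↔ Mix.COLOUR_MIXING k (f x)) :=
  fun _ hk => ⟨Mix.complete hk, fun L hL => hard_restricted hk L hL⟩

end Pool.Agent.Results.MP_8006ab_lc.BipartiteMixing
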